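import Pool.Agent.H967R3.OT.Tree

set_option autoImplicit false
set_option linter.unusedSectionVars false

namespace H967OT

open Set Cardinal

/-- every convex set missing `E` is inside or outside `U` -/
def Meas {α : Type} [LinearOrder α] (E U : Set α) : Prop :=
  ∀ C : Set α, C.OrdConnected → (∀ x ∈ C, x ∉ E) → (∀ x ∈ C, x ∈ U) ∨ (∀ x ∈ C, x ∉ U)

variable {W : Type} [LinearOrder W] [WellFoundedLT W]

structure Fam (O : Set (Set (T W))) (G : Set (T W → ℝ)) : Prop where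
  meas : ∀ U ∈ O, ∃ E : Set (T W), E.Finite ∧ Meas E U
  opn : ∀ U ∈ O, ∀ t ∈ U, ∃ a b, a < t ∧ t < b ∧ Ioo a b ⊆ U
  ioo : ∀ a b, Ioo a b ∈ O
  h1 : ∀ g ∈ G, ∀ h ∈ G, {x | g x < h x} ∈ O
  h2 : ∀ g ∈ G, ∀ q : ℚ, {x | (q:ℝ) < g x} ∈ O
  h2' : ∀ g ∈ G, ∀ q : ℚ, {x | g x < (q:ℝ)} ∈ O
  h3 : ∀ U ∈ O, ∃ g ∈ G, ∀ x, 0 ≤ g x ∧ (0 < g x ↔ x ∈ U)

theorem gap_meas {L : Set (T W)} (hL : Gap L) {E : Set (T W)} (hE : E.Finite) {l0 r0 : T W}
    (hl0 : l0 ∈ L) (hr0 : r0 ∉ L) :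
    ∃ l ∈ L, ∃ r, r ∉ L ∧ l0 ≤ l ∧ r ≤ r0 ∧ ∀ x, l ≤ x → x ≤ r → x ∉ E := by
  have f1 : (insert l0 (E ∩ L)).Finite := (hE.inter_of_left L).insert l0
  have f2 : (insert r0 (E ∩ Lᶜ)).Finite := (hE.inter_of_left Lᶜ).insert r0
  obtain ⟨m, hm, hm2⟩ := Set.exists_max_image _ (fun x : T W => x) f1 ⟨l0, mem_insert _ _⟩
  obtain ⟨m', hm', hm2'⟩ := Set.exists_min_image _ (fun x : T W => x) f2 ⟨r0, mem_insert _ _⟩
  have mL : m ∈ L := by
    rcases hm with h | h
    · rw [h]; exact hl0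
    · exact h.2
  have mL' : m' ∉ L := by
    rcases hm' with h | h
    · rw [h]; exact hr0
    · exact h.2
  obtain ⟨l, hl, hml⟩ := hL.nomax m mL
  obtain ⟨r, hr, hmr⟩ := hL.nomin m' mL'
  refine ⟨l, hl, r, hr, (hm2 l0 (mem_insert _ _)).trans hml.le,
    hmr.le.trans (hm2' r0 (mem_insert _ _)), ?_⟩
  intro x h1 h2 hxE
  by_cases hx : x ∈ L
  · exact absurd (hm2 x (mem_insert_of_mem _ ⟨hxE, hx⟩)) (not_le.2 (hml.trans_le h1))
  · exact absurd (hm2' x (mem_insert_of_mem _ ⟨hxE, hx⟩)) (not_le.2 (h2.trans_lt hmr))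

variable {O : Set (Set (T W))} {G : Set (T W → ℝ)}

theorem noJump (F : Fam O G) {h : T W → ℝ} (hh : h ∈ G) (q : ℚ) {L : Set (T W)}
    (low : ∀ x y, x ≤ y → y ∈ L → x ∈ L) {l0 r0 : T W} (hl0 : l0 ∈ L) (hr0 : r0 ∉ L)
    (hlo : ∀ s ∈ L, ∃ s' ∈ L, s ≤ s' ∧ h s' < q)
    (hup : ∀ y, y ∉ L → y ≤ r0 → (q : ℝ) < h y) : False := by
  have ltLR : ∀ {x y : T W}, x ∈ L → y ∉ L → x < y := by
    intro x y hx hy
    by_contra hc
    exact hy (low y x (not_lt.1 hc) hx)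
  by_cases hmax : ∃ t ∈ L, ∀ y ∈ L, y ≤ t
  · obtain ⟨t, ht, hmax⟩ := hmax
    obtain ⟨s', hs', hts', hq⟩ := hlo t ht
    have e : s' = t := le_antisymm (hmax s' hs') hts'
    rw [e] at hq
    obtain ⟨a, b, ha, hb, hab⟩ := F.opn _ (F.h2' h hh q) t hq
    obtain ⟨y, hy1, hy2⟩ := exists_between (lt_min hb (ltLR ht hr0))
    have hyL : y ∉ L := fun hy => absurd (hmax y hy) (not_le.2 hy1)
    have h1 : (q : ℝ) < h y := hup y hyL (hy2.le.trans (min_le_right _ _))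
    have h2 : h y < q := hab ⟨ha.trans hy1, hy2.trans_le (min_le_left _ _)⟩
    exact lt_asymm h1 h2
  by_cases hmin : ∃ t, t ∉ L ∧ ∀ y, y ∉ L → t ≤ y
  · obtain ⟨t, ht, hmin⟩ := hmin
    obtain ⟨a, b, ha, hb, hab⟩ := F.opn _ (F.h2 h hh q) t (hup t ht (hmin r0 hr0))
    obtain ⟨s, hs1, hs2⟩ := exists_between ha
    have hsL : s ∈ L := by
      by_contra hc
      exact absurd (hmin s hc) (not_le.2 hs2)
    obtain ⟨s', hs', hss', hq⟩ := hlo s hsL
    have h1 : (q : ℝ) < h s' := hab ⟨hs1.trans_le hss', (ltLR hs' ht).trans hb⟩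
    exact lt_asymm h1 hq
  · push Not at hmax hmin
    have hL : Gap L := ⟨low, ⟨l0, hl0⟩, ⟨r0, hr0⟩, hmax, hmin⟩
    obtain ⟨E, hE, hEm⟩ := F.meas _ (F.h2 h hh q)
    obtain ⟨l, hl, r, hr, h1, h2, h3⟩ := gap_meas hL hE hl0 hr0
    have hC := hEm (Icc l r) ordConnected_Icc (fun x hx => h3 x hx.1 hx.2)
    obtain ⟨s', hs', hss', hq⟩ := hlo l hl
    rcases hC with hC | hC
    · have : (q : ℝ) < h s' := hC s' ⟨hss', (ltLR hs' hr).le⟩
      exact lt_asymm this hq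
    · exact hC r ⟨(ltLR hl hr).le, le_rfl⟩ (hup r hr h2)

theorem exists_D (F : Fam O G) {h : T W → ℝ} (hh : h ∈ G) :
    ∃ D : Set (T W), D.Countable ∧ ∀ C : Set (T W), C.OrdConnected → (∀ x ∈ C, x ∉ D) →
      ∀ x ∈ C, ∀ y ∈ C, h x = h y := by
  choose E hE hEm using fun q : ℚ => F.meas _ (F.h2 h hh q)
  refine ⟨⋃ q, E q, countable_iUnion (fun q => (hE q).countable), ?_⟩
  intro C hC hCD
  have key : ∀ x ∈ C, ∀ y ∈ C, ¬ h x < h y := by
    intro x hx y hy hlt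
    obtain ⟨q, hq1, hq2⟩ := exists_rat_btwn hlt
    rcases hEm q C hC (fun z hz hzE => hCD z hz (mem_iUnion.2 ⟨q, hzE⟩)) with h1 | h1
    · exact lt_asymm (h1 x hx) hq1
    · exact h1 y hy hq2
  intro x hx y hy
  exact le_antisymm (not_lt.1 (key y hy x hx)) (not_lt.1 (key x hx y hy))

/-! ### nodes -/

variable (W) in
structure Node where
  β : W
  f : W → ℝ
  irr : ∀ j < β, Irrational (f j)

def Node.Ext (n m : Node W) : Prop := n.β ≤ m.β ∧ ag n.β m.f n.f

def Aset (G : Set (T W → ℝ)) (n : Node W) : Set ℝ :=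
  {v | ∃ g ∈ G, ∀ x : T W, ag n.β x.v n.f → g x = v}

theorem Node.Ext.refl (n : Node W) : n.Ext n := ⟨le_rfl, fun _ _ => rfl⟩

theorem Node.Ext.trans {n m k : Node W} (h : n.Ext m) (h' : m.Ext k) : n.Ext k :=
  ⟨h.1.trans h'.1, ag_trans (ag_mono h'.2 h.1) h.2⟩

theorem Aset_mono {n m : Node W} (h : n.Ext m) : Aset G n ⊆ Aset G m := by
  rintro v ⟨g, hg, hgv⟩
  exact ⟨g, hg, fun x hx => hgv x (ag_trans (ag_mono hx h.1) h.2)⟩

def HB (W : Type) [LinearOrder W] : Prop :=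
  ∀ s : Set W, #s ≤ #(Set ℝ) → ∃ b, ∀ a ∈ s, a < b

theorem exists_stable (hb : HB W) (G : Set (T W → ℝ)) :
    ∃ n : Node W, ∀ m : Node W, n.Ext m → Aset G m ⊆ Aset G n := by
  let r : Node W → Node W → Prop := fun n m => n.Ext m ∧ (Aset G m ⊆ Aset G n → m.β ≤ n.β)
  have htr : ∀ {a b c : Node W}, r a b → r b c → r a c := by
    intro a b c hab hbc
    refine ⟨hab.1.trans hbc.1, fun h => ?_⟩
    have h1 := hab.2 ((Aset_mono hbc.1).trans h)
    have h2 := hbc.2 (h.trans (Aset_mono hab.1))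
    exact h2.trans h1
  have hrefl : ∀ a, r a a := fun a => ⟨Node.Ext.refl a, fun _ => le_rfl⟩
  have hch : ∀ c : Set (Node W), IsChain r c → ∃ ub, ∀ a ∈ c, r a ub := by
    intro c hc
    have hcomp : ∀ a ∈ c, ∀ b ∈ c, r a b ∨ r b a := by
      intro a ha b hb
      by_cases e : a = b
      · subst e; exact Or.inl (hrefl a)
      · exact hc ha hb e
    have hinj : ∀ a ∈ c, ∀ b ∈ c, Aset G a = Aset G b → a.β = b.β := by
      intro a ha b hb e
      rcases hcomp a ha b hb with h | h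
      · exact le_antisymm h.1.1 (h.2 e.ge)
      · exact le_antisymm (h.2 e.le) h.1.1
    have hs : #(Node.β '' c) ≤ #(Set ℝ) := by
      choose n hn hna using fun a : (Node.β '' c) => a.2
      refine Cardinal.mk_le_of_injective (f := fun a => Aset G (n a)) ?_
      intro a b hab
      have h1 := hinj (n a) (hn a) (n b) (hn b) hab
      rw [hna a, hna b] at h1
      exact Subtype.ext h1
    obtain ⟨b, hb'⟩ := hb _ hs
    classical
    let f : W → ℝ := fun j => if h : ∃ n ∈ c, j < n.β then (Classical.choose h).f j else √2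
    have hf : ∀ j, Irrational (f j) := by
      intro j
      by_cases h : ∃ n ∈ c, j < n.β
      · have := Classical.choose_spec h
        simp only [f, dif_pos h]
        exact (Classical.choose h).irr j this.2
      · simp only [f, dif_neg h]
        exact irrational_sqrt_two
    have hfe : ∀ n ∈ c, ∀ j < n.β, f j = n.f j := by
      intro n hn j hj
      have h : ∃ n ∈ c, j < n.β := ⟨n, hn, hj⟩
      have hsp := Classical.choose_spec h
      simp only [f, dif_pos h]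
      rcases hcomp n hn _ hsp.1 with h1 | h1
      · exact h1.1.2 j hj
      · exact (h1.1.2 j hsp.2).symm
    let m : Node W := ⟨b, f, fun j _ => hf j⟩
    have hext : ∀ n ∈ c, n.Ext m := by
      intro n hn
      exact ⟨(hb' n.β (mem_image_of_mem _ hn)).le, fun j hj => hfe n hn j hj⟩
    by_cases hA : ∃ n ∈ c, Aset G m ⊆ Aset G n
    · obtain ⟨n, hn, hA⟩ := hA
      refine ⟨n, fun a ha => ?_⟩
      rcases hcomp a ha n hn with h | h
      · exact h
      · have h1 : a.β ≤ n.β := h.2 ((Aset_mono (hext a ha)).trans hA)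
        refine ⟨⟨h1, fun j hj => ?_⟩, fun _ => h.1.1⟩
        exact (h.1.2 j (hj.trans_le h1)).symm
    · push Not at hA
      exact ⟨m, fun a ha => ⟨hext a ha, fun h => absurd h (hA a ha)⟩⟩
  obtain ⟨n, hn⟩ := exists_maximal_of_chains_bounded hch htr
  refine ⟨n, fun m hm => ?_⟩
  by_contra hc
  have h1 : r n m := ⟨hm, fun h => absurd h hc⟩
  exact hc (Aset_mono (hn m h1).1)

theorem node_between (hb : HB W) {c d : T W} (h : c < d) (n : Node W) (hc : ag n.β c.v n.f)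
    (hd : ag n.β d.v n.f) :
    ∃ m : Node W, n.Ext m ∧ ∀ z : T W, ag m.β z.v m.f → c < z ∧ z < d := by
  obtain ⟨i, hi, hi2, hi3⟩ := fd h
  obtain ⟨s, hs, hs1, hs2⟩ := exists_irrational_btwn hi2
  obtain ⟨b, hb'⟩ := hb {i} (by
    rw [Cardinal.mk_singleton]
    exact (Cardinal.one_le_iff_ne_zero).2 (Cardinal.mk_ne_zero _))
  have hib : i < b := hb' i rfl
  have hni : n.β ≤ i := by
    by_contra hh
    push Not at hh
    have := (hc i hh).trans (hd i hh).symm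
    exact hi2.ne this
  classical
  refine ⟨⟨b, fun j => if j < i then c.v j else s, ?_⟩, ⟨hni.trans hib.le, ?_⟩, ?_⟩
  · intro j _
    by_cases hj : j < i
    · simpa [hj] using hi3 j hj
    · simpa [hj] using hs
  · intro j hj
    have : j < i := hj.trans_le hni
    simp only [this, if_true]
    exact hc j hj
  · intro z hz
    have hz1 : ag i z.v c.v := by
      intro j hj
      have := hz j (hj.trans hib)
      simpa [hj] using this
    have hz2 : z.v i = s := by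
      have := hz i hib
      simpa using this
    exact ⟨lt_of_ag (ag_symm hz1) (by rw [hz2]; exact hs1),
      lt_of_ag (ag_trans hz1 hi) (by rw [hz2]; exact hs2)⟩

end H967OT
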