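import Mathlib

set_option autoImplicit false
set_option linter.unusedSectionVars false

namespace H967OT

open Set

section hol

variable {G : Type} [AddCommGroup G]

theorem holder (pos : G → Prop) (e : G)
    (p1 : ∀ g, ¬ (pos g ∧ pos (-g)))
    (p2 : ∀ g h, ¬ pos g → ¬ pos h → ¬ pos (g + h))
    (p3 : pos e)
    (p4 : ∀ g, pos g → ∃ n : ℕ, ¬ pos (e - n • g))
    (p5 : ∀ g, ∃ n : ℕ, ¬ pos (g - n • e)) :
    ∃ ρ : G →+ ℝ, ρ e = 1 ∧ ∀ g, 0 < ρ g ↔ pos g := by
  have p0 : ¬ pos 0 := fun h => p1 0 ⟨h, by simpa using h⟩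
  have pn : ∀ g, ¬ pos g → ∀ n : ℕ, ¬ pos (n • g) := by
    intro g hg n
    induction n with
    | zero => simpa using p0
    | succ n ih => rw [succ_nsmul]; exact p2 _ _ ih hg
  let N : AddSubgroup G :=
    { carrier := {g | ¬ pos g ∧ ¬ pos (-g)}
      zero_mem' := ⟨p0, by simpa using p0⟩
      add_mem' := by
        rintro a b ⟨h1, h2⟩ ⟨h3, h4⟩
        refine ⟨p2 _ _ h1 h3, ?_⟩
        rw [neg_add]; exact p2 _ _ h2 h4
      neg_mem' := by
        rintro a ⟨h1, h2⟩
        exact ⟨h2, by simpa using h1⟩ }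
  have hN : ∀ g, g ∈ N ↔ ¬ pos g ∧ ¬ pos (-g) := fun g => Iff.rfl
  let Q := G ⧸ N
  let π : G →+ Q := QuotientAddGroup.mk' N
  have hπ0 : ∀ g, π g = 0 ↔ g ∈ N := fun g => QuotientAddGroup.eq_zero_iff g
  have hsurj : Function.Surjective π := QuotientAddGroup.mk'_surjective N
  let C : AddGroupCone Q :=
    { carrier := {x | ∃ g, ¬ pos (-g) ∧ π g = x}
      zero_mem' := ⟨0, by simpa using p0, map_zero π⟩
      add_mem' := by
        rintro _ _ ⟨a, ha, rfl⟩ ⟨b, hb, rfl⟩
        refine ⟨a + b, ?_, map_add π a b⟩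
        rw [neg_add]; exact p2 _ _ ha hb
      eq_zero_of_mem_of_neg_mem' := by
        rintro _ ⟨a, ha, rfl⟩ ⟨b, hb, hab⟩
        have h1 : b + a ∈ N := by
          rw [← hπ0, map_add, hab, neg_add_cancel]
        have h2 : ¬ pos a := by
          have := p2 (b + a) (-b) ((hN _).1 h1).1 hb
          simpa using this
        exact (hπ0 a).2 ⟨h2, ha⟩ }
  have hC : ∀ g, π g ∈ C ↔ ¬ pos (-g) := by
    intro g
    constructor
    · rintro ⟨a, ha, hag⟩
      have h1 : a - g ∈ N := by rw [← hπ0, map_sub, hag, sub_self]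
      have := p2 _ _ ha ((hN _).1 h1).1
      rwa [show -a + (a - g) = -g by abel] at this
    · intro h
      exact ⟨g, h, rfl⟩
  haveI : HasMemOrNegMem C := ⟨by
    intro x
    obtain ⟨g, rfl⟩ := hsurj x
    by_cases h : pos (-g)
    · right
      rw [← map_neg, hC, neg_neg]
      exact fun h' => p1 g ⟨h', h⟩
    · left
      rw [hC]; exact h⟩
  classical
  letI : LinearOrder Q := LinearOrder.mkOfAddGroupCone C
  haveI : IsOrderedAddMonoid Q := IsOrderedAddMonoid.mkOfCone C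
  have hle : ∀ a b : Q, a ≤ b ↔ b - a ∈ C := fun a b => Iff.rfl
  have hleg : ∀ a b : G, π a ≤ π b ↔ ¬ pos (a - b) := by
    intro a b
    rw [hle, ← map_sub, hC, neg_sub]
  have hltg : ∀ a b : G, π a < π b ↔ pos (b - a) := by
    intro a b
    rw [← not_le, hleg, not_not]
  have hpos : ∀ a : G, 0 < π a ↔ pos a := by
    intro a
    have := hltg 0 a
    rwa [map_zero, sub_zero] at this
  letI : One Q := ⟨π e⟩
  have hone : (1 : Q) = π e := rfl
  haveI : ZeroLEOneClass Q := ⟨by rw [hone]; exact ((hpos e).2 p3).le⟩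
  haveI : NeZero (1 : Q) := ⟨by rw [hone]; exact ((hpos e).2 p3).ne'⟩
  haveI : Archimedean Q := ⟨by
    intro x y hy
    obtain ⟨a, rfl⟩ := hsurj x
    obtain ⟨b, rfl⟩ := hsurj y
    rw [hpos] at hy
    obtain ⟨n, hn⟩ := p4 b hy
    obtain ⟨m, hm⟩ := p5 a
    refine ⟨m * n, ?_⟩
    rw [← map_nsmul, hleg]
    have h1 := p2 _ _ hm (pn _ hn m)
    have h2 : a - m • e + m • (e - n • b) = a - (m * n) • b := by
      rw [nsmul_sub, mul_nsmul']
      abel
    rwa [h2] at h1⟩
  let ε := Archimedean.embedReal Q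
  have hεm : StrictMono ε := ε.monotone'.strictMono_of_injective (Archimedean.embedReal_injective Q)
  refine ⟨(ε : Q →+ ℝ).comp π, ?_, ?_⟩
  · change ε (π e) = 1
    rw [← hone]
    exact Archimedean.embedReal_one
  · intro g
    change 0 < ε (π g) ↔ pos g
    rw [← hpos, ← hεm.lt_iff_lt, map_zero]

end hol

end H967OT
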