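import Pool.Agent.H967R3.OT.Core

set_option autoImplicit false
set_option linter.unusedSectionVars false

namespace H967OT

open Set Cardinal

section gen

variable {α : Type} [LinearOrder α]

variable (α) in
def OO : Set (Set α) :=
  {U : Set α | ∀ S : Set (Set α), ∅ ∈ S → Set.univ ∈ S →
            (∀ a : α, Set.Iio a ∈ S ∧ Set.Ioi a ∈ S) →
            (∀ A ∈ S, ∀ B ∈ S, A ∪ B ∈ S) →
            (∀ A ∈ S, ∀ B ∈ S, A ∩ B ∈ S) → U ∈ S}

theorem OO_empty : (∅ : Set α) ∈ OO α := fun _ h1 _ _ _ _ => h1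
theorem OO_univ : (univ : Set α) ∈ OO α := fun _ _ h2 _ _ _ => h2
theorem OO_Iio (a : α) : Iio a ∈ OO α := fun _ _ _ h3 _ _ => (h3 a).1
theorem OO_Ioi (a : α) : Ioi a ∈ OO α := fun _ _ _ h3 _ _ => (h3 a).2
theorem OO_union {A B : Set α} (hA : A ∈ OO α) (hB : B ∈ OO α) : A ∪ B ∈ OO α :=
  fun S h1 h2 h3 h4 h5 => h4 _ (hA S h1 h2 h3 h4 h5) _ (hB S h1 h2 h3 h4 h5)
theorem OO_inter {A B : Set α} (hA : A ∈ OO α) (hB : B ∈ OO α) : A ∩ B ∈ OO α :=
  fun S h1 h2 h3 h4 h5 => h5 _ (hA S h1 h2 h3 h4 h5) _ (hB S h1 h2 h3 h4 h5)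
theorem OO_Ioo (a b : α) : Ioo a b ∈ OO α := by
  have : Ioo a b = Ioi a ∩ Iio b := by ext x; rfl
  rw [this]; exact OO_inter (OO_Ioi a) (OO_Iio b)

theorem OO_sUnion {S : Set (Set α)} (hS : S.Finite) (h : ∀ U ∈ S, U ∈ OO α) : ⋃₀ S ∈ OO α := by
  induction S, hS using Set.Finite.induction_on with
  | empty => simpa using OO_empty
  | @insert a s _ _ ih =>
    rw [sUnion_insert]
    exact OO_union (h a (mem_insert _ _)) (ih (fun U hU => h U (mem_insert_of_mem _ hU)))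

theorem OO_sInter {S : Set (Set α)} (hS : S.Finite) (h : ∀ U ∈ S, U ∈ OO α) : ⋂₀ S ∈ OO α := by
  induction S, hS using Set.Finite.induction_on with
  | empty => simpa using OO_univ
  | @insert a s _ _ ih =>
    rw [sInter_insert]
    exact OO_inter (h a (mem_insert _ _)) (ih (fun U hU => h U (mem_insert_of_mem _ hU)))

theorem Meas.union {E E' U U' : Set α} (h : Meas E U) (h' : Meas E' U') :
    Meas (E ∪ E') (U ∪ U') := by
  intro C hC hCE
  rcases h C hC (fun x hx hxE => hCE x hx (Or.inl hxE)) with h1 | h1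
  · exact Or.inl (fun x hx => Or.inl (h1 x hx))
  rcases h' C hC (fun x hx hxE => hCE x hx (Or.inr hxE)) with h2 | h2
  · exact Or.inl (fun x hx => Or.inr (h2 x hx))
  exact Or.inr (fun x hx hxU => hxU.elim (h1 x hx) (h2 x hx))

theorem Meas.compl {E U : Set α} (h : Meas E U) : Meas E Uᶜ := by
  intro C hC hCE
  rcases h C hC hCE with h1 | h1
  · exact Or.inr (fun x hx hxU => hxU (h1 x hx))
  · exact Or.inl h1

theorem Meas.inter {E E' U U' : Set α} (h : Meas E U) (h' : Meas E' U') :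
    Meas (E ∪ E') (U ∩ U') := by
  have := (h.compl.union h'.compl).compl
  rwa [compl_union, compl_compl, compl_compl] at this

theorem OO_meas {U : Set α} (hU : U ∈ OO α) : ∃ E : Set α, E.Finite ∧ Meas E U := by
  refine hU {U | ∃ E : Set α, E.Finite ∧ Meas E U} ?_ ?_ ?_ ?_ ?_
  · exact ⟨∅, finite_empty, fun C _ _ => Or.inr (fun x _ h => h)⟩
  · exact ⟨∅, finite_empty, fun C _ _ => Or.inl (fun x _ => mem_univ x)⟩
  · intro a
    constructor
    · refine ⟨{a}, finite_singleton a, fun C hC hCa => ?_⟩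
      by_contra hcon
      push Not at hcon
      obtain ⟨⟨x, hx, hxa⟩, y, hy, hya⟩ := hcon
      exact hCa a (hC.out hy hx ⟨(mem_Iio.1 hya).le, not_lt.1 hxa⟩) rfl
    · refine ⟨{a}, finite_singleton a, fun C hC hCa => ?_⟩
      by_contra hcon
      push Not at hcon
      obtain ⟨⟨x, hx, hxa⟩, y, hy, hya⟩ := hcon
      exact hCa a (hC.out hx hy ⟨not_lt.1 hxa, (mem_Ioi.1 hya).le⟩) rfl
  · rintro A ⟨E, hE, hA⟩ B ⟨E', hE', hB⟩
    exact ⟨E ∪ E', hE.union hE', hA.union hB⟩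
  · rintro A ⟨E, hE, hA⟩ B ⟨E', hE', hB⟩
    exact ⟨E ∪ E', hE.union hE', hA.inter hB⟩

theorem OO_open (hmax : ∀ x : α, ∃ y, x < y) (hmin : ∀ x : α, ∃ y, y < x) {U : Set α}
    (hU : U ∈ OO α) : ∀ t ∈ U, ∃ a b, a < t ∧ t < b ∧ Ioo a b ⊆ U := by
  refine hU {U | ∀ t ∈ U, ∃ a b, a < t ∧ t < b ∧ Ioo a b ⊆ U} ?_ ?_ ?_ ?_ ?_
  · intro t ht; exact absurd ht (notMem_empty t)
  · intro t _
    obtain ⟨a, ha⟩ := hmin t
    obtain ⟨b, hb⟩ := hmax t
    exact ⟨a, b, ha, hb, subset_univ _⟩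
  · intro c
    constructor
    · intro t ht
      obtain ⟨a, ha⟩ := hmin t
      exact ⟨a, c, ha, ht, fun x hx => hx.2⟩
    · intro t ht
      obtain ⟨b, hb⟩ := hmax t
      exact ⟨c, b, ht, hb, fun x hx => hx.1⟩
  · intro A hA B hB t ht
    rcases ht with ht | ht
    · obtain ⟨a, b, h1, h2, h3⟩ := hA t ht
      exact ⟨a, b, h1, h2, h3.trans subset_union_left⟩
    · obtain ⟨a, b, h1, h2, h3⟩ := hB t ht
      exact ⟨a, b, h1, h2, h3.trans subset_union_right⟩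
  · intro A hA B hB t ht
    obtain ⟨a, b, h1, h2, h3⟩ := hA t ht.1
    obtain ⟨a', b', h1', h2', h3'⟩ := hB t ht.2
    refine ⟨max a a', min b b', max_lt h1 h1', lt_min h2 h2', fun x hx => ⟨h3 ?_, h3' ?_⟩⟩
    · exact ⟨(le_max_left _ _).trans_lt hx.1, hx.2.trans_le (min_le_left _ _)⟩
    · exact ⟨(le_max_right _ _).trans_lt hx.1, hx.2.trans_le (min_le_right _ _)⟩

theorem Meas.diff_mem {E V : Set α} (hE : E.Finite) (h : Meas E V) : V \ E ∈ OO α := by
  classical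
  let cmp : Set α → Set α := fun s => ⋂₀ ((fun e => if e ∈ s then Ioi e else Iio e) '' E)
  have hcmpO : ∀ s, cmp s ∈ OO α := by
    intro s
    refine OO_sInter (hE.image _) ?_
    rintro U ⟨e, he, rfl⟩
    by_cases hes : e ∈ s
    · simpa [hes] using OO_Ioi e
    · simpa [hes] using OO_Iio e
  have hmem : ∀ s x, x ∈ cmp s ↔ ∀ e ∈ E, (e ∈ s → e < x) ∧ (e ∉ s → x < e) := by
    intro s x
    simp only [cmp, mem_sInter, mem_image, forall_exists_index, and_imp,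
      forall_apply_eq_imp_iff₂]
    refine forall₂_congr fun e he => ?_
    by_cases hes : e ∈ s <;> simp [hes]
  have hcmpC : ∀ s, (cmp s).OrdConnected := by
    intro s
    refine ⟨fun x hx y hy z hz => ?_⟩
    rw [hmem] at hx hy ⊢
    intro e he
    exact ⟨fun h => ((hx e he).1 h).trans_le hz.1, fun h => hz.2.trans_lt ((hy e he).2 h)⟩
  have hcmpE : ∀ s, ∀ x ∈ cmp s, x ∉ E := by
    intro s x hx hxE
    rw [hmem] at hx
    by_cases hxs : x ∈ s
    · exact lt_irrefl _ ((hx x hxE).1 hxs)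
    · exact lt_irrefl _ ((hx x hxE).2 hxs)
  have e : V \ E = ⋃₀ {c | ∃ s, s ⊆ E ∧ c = cmp s ∧ (∀ x ∈ c, x ∈ V)} := by
    ext x
    constructor
    · rintro ⟨hxV, hxE⟩
      have hx : x ∈ cmp {e ∈ E | e < x} := by
        rw [hmem]
        intro e he
        refine ⟨fun h => h.2, fun h => ?_⟩
        rcases lt_trichotomy e x with h1 | h1 | h1
        · exact absurd ⟨he, h1⟩ h
        · subst h1; exact absurd he hxE
        · exact h1
      refine ⟨cmp {e ∈ E | e < x}, ⟨_, sep_subset _ _, rfl, ?_⟩, hx⟩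
      rcases h _ (hcmpC _) (hcmpE _) with h1 | h1
      · exact h1
      · exact absurd hxV (h1 x hx)
    · rintro ⟨c, ⟨s, hs, rfl, hc⟩, hxc⟩
      exact ⟨hc x hxc, hcmpE s x hxc⟩
  rw [e]
  refine OO_sUnion ?_ ?_
  · refine (hE.finite_subsets.image cmp).subset ?_
    rintro c ⟨s, hs, rfl, -⟩
    exact ⟨s, hs, rfl⟩
  · rintro c ⟨s, hs, rfl, -⟩
    exact hcmpO s

theorem OO_cbd (hmax : ∀ x : α, ∃ y, x < y) (hmin : ∀ x : α, ∃ y, y < x)
    (hchar : ∀ t : α, ∃ l r : ℕ → α, (∀ n, l n < t ∧ t < r n) ∧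
      ∀ a b, a < t → t < b → ∃ n, a ≤ l n ∧ r n ≤ b) :
    ∀ a ∈ OO α, ∀ b ∈ OO α, ∃ C : Set (Set α), C.Countable ∧
          (∀ c ∈ C, c ∈ OO α ∧ a ⊆ b ∪ c) ∧
          ∀ x ∈ OO α, a ⊆ b ∪ x → ∃ c ∈ C, c ⊆ x := by
  choose l r hlr hch using hchar
  intro a ha b hb
  obtain ⟨Ea, hEa, hMa⟩ := OO_meas ha
  obtain ⟨Eb, hEb, hMb⟩ := OO_meas hb
  have hM : Meas (Ea ∪ Eb) (a \ b) := hMa.inter hMb.compl
  have hE := hEa.union hEb
  set E := Ea ∪ Eb
  haveI := hE.to_subtype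
  let c : (E → ℕ) → Set α := fun n => ((a \ b) \ E) ∪
    ⋃₀ ((fun t : E => Ioo (l t (n t)) (r t (n t))) '' {t : E | (t : α) ∈ a \ b})
  refine ⟨range c, countable_range c, ?_, ?_⟩
  · rintro _ ⟨n, rfl⟩
    refine ⟨OO_union (hM.diff_mem hE) (OO_sUnion ((toFinite _).image _) ?_), ?_⟩
    · rintro _ ⟨t, -, rfl⟩
      exact OO_Ioo _ _
    · intro x hx
      by_cases hxb : x ∈ b
      · exact Or.inl hxb
      · right
        by_cases hxE : x ∈ E
        · right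
          exact ⟨_, ⟨⟨x, hxE⟩, ⟨hx, hxb⟩, rfl⟩, (hlr x _).1, (hlr x _).2⟩
        · exact Or.inl ⟨⟨hx, hxb⟩, hxE⟩
  · intro x hx hax
    have hVx : ∀ t ∈ a \ b, t ∈ x := fun t ht => (hax ht.1).resolve_left ht.2
    have key : ∀ t : E, ∃ n : ℕ, (t : α) ∈ a \ b → Ioo (l t n) (r t n) ⊆ x := by
      intro t
      by_cases ht : (t : α) ∈ a \ b
      · obtain ⟨a', b', h1, h2, h3⟩ := OO_open hmax hmin hx t (hVx t ht)
        obtain ⟨n, hn1, hn2⟩ := hch t a' b' h1 h2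
        exact ⟨n, fun _ z hz => h3 ⟨hn1.trans_lt hz.1, hz.2.trans_le hn2⟩⟩
      · exact ⟨0, fun h => absurd h ht⟩
    choose n hn using key
    refine ⟨c n, ⟨n, rfl⟩, ?_⟩
    intro z hz
    rcases hz with hz | ⟨_, ⟨t, ht, rfl⟩, hz⟩
    · exact hVx z hz.1
    · exact hn t ht hz

end gen

variable {W : Type} [LinearOrder W] [WellFoundedLT W]

theorem T_char (t : T W) : ∃ l r : ℕ → T W, (∀ n, l n < t ∧ t < r n) ∧
      ∀ a b, a < t → t < b → ∃ n, a ≤ l n ∧ r n ≤ b := by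
  obtain ⟨α, h1, q, hq⟩ := exists_len t
  refine ⟨fun n => mk α t.v h1 (q - 1 / ((n : ℚ) + 1)), fun n => mk α t.v h1 (q + 1 / ((n : ℚ) + 1)),
    ?_, ?_⟩
  · intro n
    have hn : (0:ℝ) < 1 / ((n : ℝ) + 1) := by positivity
    constructor
    · refine lt_of_ag (γ := α) (mk_ag _ _ _ _) ?_
      rw [mk_at, hq]; push_cast; linarith
    · refine lt_of_ag (γ := α) (ag_symm (mk_ag _ _ _ _)) ?_
      rw [mk_at, hq]; push_cast; linarith
  · intro a b ha hb
    have k1 : ∃ δ : ℝ, 0 < δ ∧ ∀ q' : ℚ, (q : ℝ) - δ < q' → a < mk α t.v h1 q' := by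
      obtain ⟨i, hi, hi2, hi3⟩ := fd ha
      rcases lt_trichotomy i α with h3 | h3 | h3
      · refine ⟨1, one_pos, fun q' _ => ?_⟩
        have hag := mk_ag α t.v h1 q'
        refine lt_of_ag (γ := i) (ag_trans hi (ag_symm (ag_mono hag h3.le))) ?_
        rw [hag i h3]; exact hi2
      · subst h3
        refine ⟨q - a.v i, by rw [hq] at hi2; linarith, fun q' hq' => ?_⟩
        have hag := mk_ag i t.v h1 q'
        refine lt_of_ag (γ := i) (ag_trans hi (ag_symm hag)) ?_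
        rw [mk_at]; linarith
      · exact absurd ⟨q, by rw [hi α h3, hq]⟩ (hi3 α h3)
    have k2 : ∃ δ : ℝ, 0 < δ ∧ ∀ q' : ℚ, (q' : ℝ) < q + δ → mk α t.v h1 q' < b := by
      obtain ⟨i, hi, hi2, hi3⟩ := fd hb
      rcases lt_trichotomy i α with h3 | h3 | h3
      · refine ⟨1, one_pos, fun q' _ => ?_⟩
        have hag := mk_ag α t.v h1 q'
        refine lt_of_ag (γ := i) (ag_trans (ag_mono hag h3.le) hi) ?_
        rw [hag i h3]; exact hi2
      · subst h3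
        refine ⟨b.v i - q, by rw [hq] at hi2; linarith, fun q' hq' => ?_⟩
        have hag := mk_ag i t.v h1 q'
        refine lt_of_ag (γ := i) (ag_trans hag hi) ?_
        rw [mk_at]; linarith
      · exact absurd ⟨q, by rw [hq]⟩ (hi3 α h3)
    obtain ⟨δ1, hδ1, k1⟩ := k1
    obtain ⟨δ2, hδ2, k2⟩ := k2
    obtain ⟨n, hn⟩ := exists_nat_one_div_lt (lt_min hδ1 hδ2)
    have hn1 := hn.trans_le (min_le_left _ _)
    have hn2 := hn.trans_le (min_le_right _ _)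
    refine ⟨n, (k1 _ ?_).le, (k2 _ ?_).le⟩
    · push_cast; linarith
    · push_cast; linarith

theorem T_cbd : ∀ a ∈ OO (T W), ∀ b ∈ OO (T W), ∃ C : Set (Set (T W)), C.Countable ∧
          (∀ c ∈ C, c ∈ OO (T W) ∧ a ⊆ b ∪ c) ∧
          ∀ x ∈ OO (T W), a ⊆ b ∪ x → ∃ c ∈ C, c ⊆ x :=
  OO_cbd exists_gt' exists_lt' T_char

theorem exists_W : ∃ (W : Type) (_ : LinearOrder W) (_ : WellFoundedLT W), HB W := by
  let κ : Cardinal.{0} := Order.succ #(Set ℝ)
  have hreg : κ.IsRegular := Cardinal.isRegular_succ (Cardinal.aleph0_le_mk _)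
  refine ⟨κ.ord.ToType, inferInstance, inferInstance, ?_⟩
  intro s hs
  by_contra hcon
  push Not at hcon
  have h1 : IsCofinal s := fun b => by
    obtain ⟨a, ha, hab⟩ := hcon b
    exact ⟨a, ha, hab⟩
  have h2 := Order.cof_le h1
  have h3 : Order.cof κ.ord.ToType = κ := by
    have := hreg.cof_ord
    simpa using this
  rw [h3] at h2
  exact absurd (h2.trans hs) (not_le.2 (Order.lt_succ _))

end H967OT
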