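import Pool.Agent.H967R3.OT.Core

set_option autoImplicit false
set_option linter.unusedSectionVars false

namespace H967OT

open Set Cardinal

variable {W : Type} [LinearOrder W] [WellFoundedLT W]
variable {O : Set (Set (T W))} {G : Set (T W → ℝ)}

/-- `d` and `d'` first differ at level `β`. -/
def MeetAt (d d' : T W) (β : W) : Prop := ag β d.v d'.v ∧ d.v β ≠ d'.v β

theorem MeetAt.unique {d d' : T W} {β β' : W} (h : MeetAt d d' β) (h' : MeetAt d d' β') :
    β = β' := by
  rcases lt_trichotomy β β' with h1 | h1 | h1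
  · exact absurd (h'.1 β h1) h.2
  · exact h1
  · exact absurd (h.1 β' h1) h'.2

def Phi1 (p : T W × T W) : Set (T W) :=
  {x | ∃ β, ∃ z : T W, MeetAt p.1 p.2 β ∧ ag β z.v p.1.v ∧ x ≤ z}

def Phi2 (p : T W × T W) : Set (T W) :=
  {x | ¬ ∃ β, ∃ z : T W, MeetAt p.1 p.2 β ∧ ag β z.v p.1.v ∧ z ≤ x}

def Phi3 (p : (T W × T W) × ℚ) : Set (T W) :=
  {x | ∃ β, ∃ z : T W, MeetAt p.1.1 p.1.2 β ∧ ag β z.v p.1.1.v ∧ z.v β = p.2 ∧ x ≤ z}

theorem core (hb : HB W) (F : Fam O G) : False := by
  obtain ⟨σ, hσ⟩ := exists_stable hb G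
  have P0a := mk_ag σ.β σ.f σ.irr 0
  have P0v := mk_at σ.β σ.f σ.irr 0
  set P0 : T W := mk σ.β σ.f σ.irr 0 with hP0
  have P1a := mk_ag σ.β σ.f σ.irr 1
  have P1v := mk_at σ.β σ.f σ.irr 1
  set P1 : T W := mk σ.β σ.f σ.irr 1 with hP1
  have Xa := mk_ag σ.β σ.f σ.irr (1/2)
  have Xv := mk_at σ.β σ.f σ.irr (1/2)
  set X : T W := mk σ.β σ.f σ.irr (1/2) with hX
  have hP0X : P0 < X := lt_of_ag (ag_trans P0a (ag_symm Xa)) (by rw [P0v, Xv]; norm_num)
  have hXP1 : X < P1 := lt_of_ag (ag_trans Xa (ag_symm P1a)) (by rw [P1v, Xv]; norm_num)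
  obtain ⟨h, hh, hpos⟩ := F.h3 (Ioo P0 P1) (F.ioo P0 P1)
  have hX0 : 0 < h X := (hpos X).2.2 ⟨hP0X, hXP1⟩
  have hP00 : h P0 = 0 := by
    refine le_antisymm ?_ (hpos P0).1
    by_contra hc
    exact lt_irrefl _ ((hpos P0).2.1 (not_le.1 hc)).1
  obtain ⟨D, hDc, hD⟩ := exists_D F hh
  -- the cut of a value
  let Lv : ℝ → Set (T W) := fun v => {s | ∃ s', s ≤ s' ∧ s' ≤ X ∧ h s' ≤ v}
  have low : ∀ v, ∀ x y, x ≤ y → y ∈ Lv v → x ∈ Lv v := by
    rintro v x y hxy ⟨s', h1, h2, h3⟩
    exact ⟨s', hxy.trans h1, h2, h3⟩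
  have hP0L : ∀ v, 0 < v → P0 ∈ Lv v := fun v hv => ⟨P0, le_rfl, hP0X.le, by rw [hP00]; exact hv.le⟩
  have hXL : ∀ v, v < h X → X ∉ Lv v := by
    rintro v hv ⟨s', h1, h2, h3⟩
    rw [le_antisymm h2 h1] at h3
    exact absurd h3 (not_le.2 hv)
  have up : ∀ v, ∀ y, y ∉ Lv v → y ≤ X → v < h y := by
    intro v y hy hyX
    by_contra hc
    exact hy ⟨y, le_rfl, hyX, not_lt.1 hc⟩
  have lo : ∀ v, ∀ s ∈ Lv v, ∃ s' ∈ Lv v, s ≤ s' ∧ s' ≤ X ∧ h s' ≤ v := by
    rintro v s ⟨s', h1, h2, h3⟩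
    exact ⟨s', ⟨s', le_rfl, h2, h3⟩, h1, h2, h3⟩
  have ltL : ∀ v, ∀ x y, x ∈ Lv v → y ∉ Lv v → x < y := by
    intro v x y hx hy
    by_contra hc
    exact hy (low v y x (not_lt.1 hc) hx)
  -- injectivity
  have inj : ∀ v v', 0 < v → v < v' → v' < h X → Lv v ≠ Lv v' := by
    intro v v' hv hvv' hv' e
    obtain ⟨q, hq1, hq2⟩ := exists_rat_btwn hvv'
    refine noJump F hh q (low v) (hP0L v hv) (hXL v (hvv'.trans hv')) ?_ ?_
    · intro s hs
      obtain ⟨s', h1, h2, h3, h4⟩ := lo v s hs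
      exact ⟨s', h1, h2, h4.trans_lt hq1⟩
    · intro y hy hyX
      rw [e] at hy
      exact hq2.trans (up v' y hy hyX)
  -- the range
  let 𝓒 : Set (Set (T W)) := (Phi1 '' (D ×ˢ D)) ∪ (Phi2 '' (D ×ˢ D)) ∪
    (Phi3 '' ((D ×ˢ D) ×ˢ (univ : Set ℚ)))
  have h𝓒 : 𝓒.Countable :=
    (((hDc.prod hDc).image _).union ((hDc.prod hDc).image _)).union
      (((hDc.prod hDc).prod countable_univ).image _)
  have mem : ∀ v ∈ Ioo 0 (h X), Lv v ∈ 𝓒 := by
    rintro v ⟨hv, hvX⟩
    have hP0v := hP0L v hv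
    have hXv := hXL v hvX
    -- no min above
    have nomin : ∀ t, t ∉ Lv v → ∃ y, y ∉ Lv v ∧ y < t := by
      by_contra hcon
      push Not at hcon
      obtain ⟨t, ht, hmin⟩ := hcon
      have htX : t ≤ X := hmin X hXv
      obtain ⟨q, hq1, hq2⟩ := exists_rat_btwn (up v t ht htX)
      refine noJump F hh q (low v) hP0v ht ?_ ?_
      · intro s hs
        obtain ⟨s', h1, h2, h3, h4⟩ := lo v s hs
        exact ⟨s', h1, h2, h4.trans_lt hq1⟩
      · intro y hy hyt
        rw [le_antisymm hyt (hmin y hy)]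
        exact hq2
    -- D is coinitial
    have coin : ∀ p, p ∉ Lv v → ∃ d ∈ D, d ∉ Lv v ∧ d < p := by
      by_contra hcon
      push Not at hcon
      obtain ⟨p, hp, hcon⟩ := hcon
      have hp' : min p X ∉ Lv v := by
        rcases min_choice p X with e | e
        · rw [e]; exact hp
        · rw [e]; exact hXv
      obtain ⟨c0, hc0, hc0p⟩ := nomin _ hp'
      have hconst := hD {y | y ∉ Lv v ∧ y < min p X}
        ⟨fun x hx y hy z hz => ⟨fun hzL => hx.1 (low v x z hz.1 hzL), hz.2.trans_lt hy.2⟩⟩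
        (fun x hx hxD => absurd (hcon x hxD hx.1) (not_le.2 (hx.2.trans_le (min_le_left _ _))))
      have hc0v : v < h c0 := up v c0 hc0 (hc0p.le.trans (min_le_right _ _))
      obtain ⟨q, hq1, hq2⟩ := exists_rat_btwn hc0v
      refine noJump F hh q (low v) hP0v hc0 ?_ ?_
      · intro s hs
        obtain ⟨s', h1, h2, h3, h4⟩ := lo v s hs
        exact ⟨s', h1, h2, h4.trans_lt hq1⟩
      · intro y hy hyt
        rw [hconst y ⟨hy, hyt.trans_lt hc0p⟩ c0 ⟨hc0, hc0p⟩]
        exact hq2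
    by_cases hmax : ∃ t ∈ Lv v, ∀ y ∈ Lv v, y ≤ t
    · -- the cut is a point
      obtain ⟨t, ht, hmax⟩ := hmax
      obtain ⟨α, h1, q, hq⟩ := exists_len t
      have pa := mk_ag α t.v h1 (q + 1)
      have pv := mk_at α t.v h1 (q + 1)
      set p1 := mk α t.v h1 (q + 1) with hp1
      have htp1 : t < p1 := lt_of_ag (ag_symm pa) (by rw [pv, hq]; push_cast; linarith)
      have hp1L : p1 ∉ Lv v := fun hc => absurd (hmax p1 hc) (not_le.2 htp1)
      obtain ⟨d1, hd1D, hd1L, hd1p⟩ := coin p1 hp1L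
      have htd1 := ltL v t d1 ht hd1L
      have d1a : ag α d1.v t.v := ag_convex (fun _ _ => rfl) pa htd1.le hd1p.le
      have d1v : (q : ℝ) < d1.v α := by
        have h2 := le_of_lt_ag (ag_symm d1a) htd1
        rw [hq] at h2
        rcases h2.eq_or_lt with h3 | h3
        · exact absurd (eq_of_ag (ag_symm d1a) hq h3.symm) htd1.ne
        · exact h3
      obtain ⟨q2, hq2, hq2'⟩ := exists_rat_btwn d1v
      have pa2 := mk_ag α t.v h1 q2
      have pv2 := mk_at α t.v h1 q2
      set p2 := mk α t.v h1 q2 with hp2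
      have htp2 : t < p2 := lt_of_ag (ag_symm pa2) (by rw [pv2, hq]; exact hq2)
      have hp2L : p2 ∉ Lv v := fun hc => absurd (hmax p2 hc) (not_le.2 htp2)
      obtain ⟨d2, hd2D, hd2L, hd2p⟩ := coin p2 hp2L
      have htd2 := ltL v t d2 ht hd2L
      have d2a : ag α d2.v t.v := ag_convex (fun _ _ => rfl) pa2 htd2.le hd2p.le
      have d2v : d2.v α < d1.v α := by
        have h2 := le_of_lt_ag (ag_trans d2a (ag_symm pa2)) hd2p
        rw [pv2] at h2
        exact h2.trans_lt hq2'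
      have hM : MeetAt d1 d2 α := ⟨ag_trans d1a (ag_symm d2a), d2v.ne'⟩
      refine Or.inr ⟨((d1, d2), q), ⟨⟨hd1D, hd2D⟩, mem_univ _⟩, ?_⟩
      ext x
      constructor
      · rintro ⟨β, z, hMz, hz1, hz2, hz3⟩
        have e := hM.unique hMz
        subst e
        have : z = t := eq_of_ag (ag_trans hz1 d1a) hz2 hq
        rw [this] at hz3
        exact low v x t hz3 ht
      · intro hx
        exact ⟨α, t, hM, ag_symm d1a, hq, hmax x hx⟩
    · push Not at hmax
      have hL : Gap (Lv v) := ⟨low v, ⟨P0, hP0v⟩, ⟨X, hXv⟩, hmax, nomin⟩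
      -- D is cofinal
      have cof : ∀ p ∈ Lv v, ∃ d ∈ D, d ∈ Lv v ∧ p < d := by
        by_contra hcon
        push Not at hcon
        obtain ⟨p, hp, hcon⟩ := hcon
        have hp' : max p P0 ∈ Lv v := by
          rcases max_choice p P0 with e | e
          · rw [e]; exact hp
          · rw [e]; exact hP0v
        obtain ⟨c0, hc0, hc0p⟩ := hmax _ hp'
        obtain ⟨c1, hc1, hc01⟩ := hmax _ hc0
        have hconst := hD {y | y ∈ Lv v ∧ max p P0 < y}
          ⟨fun x hx y hy z hz => ⟨low v z y hz.2 hy.1, hx.2.trans_le hz.1⟩⟩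
          (fun x hx hxD => absurd (hcon x hxD hx.1) (not_le.2 ((le_max_left _ _).trans_lt hx.2)))
        have hc0v : h c0 ≤ v := by
          obtain ⟨s', h1, h2, h3, h4⟩ := lo v c0 hc0
          rw [hconst c0 ⟨hc0, hc0p⟩ s' ⟨h1, hc0p.trans_le h2⟩]
          exact h4
        have hc0e : h c0 = v := by
          rcases hc0v.eq_or_lt with h1 | h1
          · exact h1
          · exfalso
            obtain ⟨q, hq1, hq2⟩ := exists_rat_btwn h1
            refine noJump F hh q (low v) hP0v hXv ?_ ?_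
            · intro s hs
              have hm : max s c0 ∈ Lv v := by
                rcases max_choice s c0 with e | e
                · rw [e]; exact hs
                · rw [e]; exact hc0
              refine ⟨max s c0, hm, le_max_left _ _, ?_⟩
              rw [hconst (max s c0) ⟨hm, hc0p.trans_le (le_max_right _ _)⟩ c0 ⟨hc0, hc0p⟩]
              exact hq1
            · intro y hy hyt
              exact hq2.trans (up v y hy hyt)
        have c0a : ag σ.β c0.v σ.f :=
          ag_convex P0a Xa ((le_max_right _ _).trans hc0p.le) (ltL v c0 X hc0 hXv).le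
        have c1a : ag σ.β c1.v σ.f :=
          ag_convex P0a Xa (((le_max_right _ _).trans hc0p.le).trans hc01.le)
            (ltL v c1 X hc1 hXv).le
        obtain ⟨m, hm, hmz⟩ := node_between hb hc01 σ c0a c1a
        have hvA : v ∈ Aset G m := by
          refine ⟨h, hh, fun z hz => ?_⟩
          have hz' := hmz z hz
          rw [hconst z ⟨low v z c1 hz'.2.le hc1, hc0p.trans hz'.1⟩ c0 ⟨hc0, hc0p⟩]
          exact hc0e
        obtain ⟨g, hg, hgv⟩ := hσ m hm hvA
        obtain ⟨E, hE, hEm⟩ := F.meas _ (F.h1 g hg h hh)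
        obtain ⟨l, hl, r, hr, h1, h2, h3⟩ := gap_meas hL hE hP0v hXv
        have hrl := ltL v l r hl hr
        have hin : ∀ z ∈ Icc l r, g z = v := fun z hz =>
          hgv z (ag_convex P0a Xa (h1.trans hz.1) (hz.2.trans h2))
        rcases hEm (Icc l r) ordConnected_Icc (fun x hx => h3 x hx.1 hx.2) with hC | hC
        · obtain ⟨s', hs1, hs2, hs3, hs4⟩ := lo v l hl
          have hs5 : s' ∈ Icc l r := ⟨hs2, (ltL v s' r hs1 hr).le⟩
          have := hC s' hs5
          have h6 : g s' < h s' := this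
          rw [hin s' hs5] at h6
          exact absurd hs4 (not_le.2 h6)
        · refine hC r ⟨hrl.le, le_rfl⟩ ?_
          change g r < h r
          rw [hin r ⟨hrl.le, le_rfl⟩]
          exact up v r hr h2
      rcases classify hL with hcl | ⟨β, hirr, hcl | hcl⟩
      · -- cut at all levels: impossible
        exfalso
        choose len hlen using fun x : T W => exists_len x
        have hcard : #(len '' D) ≤ #(Set ℝ) := by
          have h1 : #(len '' D) ≤ ℵ₀ := Cardinal.le_aleph0_iff_set_countable.2 (hDc.image _)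
          refine h1.trans ?_
          have : Infinite (Set ℝ) := inferInstance
          exact Cardinal.aleph0_le_mk _
        obtain ⟨b, hb'⟩ := hb _ hcard
        obtain ⟨⟨x', hx', hx'a⟩, y', hy', hy'a⟩ := (hcl b).1
        obtain ⟨d, hdD, hdL, hxd⟩ := cof x' hx'
        have da : ag b d.v (br (Lv v)) := ag_convex hx'a hy'a hxd.le (ltL v d y' hdL hy').le
        have h1 := da (len d) (hb' _ (mem_image_of_mem _ hdD))
        obtain ⟨q, hq⟩ := (hlen d).2
        exact (hcl (len d)).2 ⟨q, by rw [← hq, h1]⟩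
      · -- right end of a node
        obtain ⟨hK, hK2⟩ := hcl
        have z0a := mk_ag β (br (Lv v)) hirr 0
        set z0 := mk β (br (Lv v)) hirr 0 with hz0
        obtain ⟨d1, hd1D, hd1L, hd1⟩ := cof z0 (hK z0 z0a)
        have d1a : ag β d1.v (br (Lv v)) := by
          obtain ⟨z, hz, hdz⟩ := hK2 d1 hd1L
          exact ag_convex z0a hz hd1.le hdz
        obtain ⟨q1, hq1⟩ := exists_rat_gt (d1.v β)
        have p1a := mk_ag β (br (Lv v)) hirr q1
        have p1v := mk_at β (br (Lv v)) hirr q1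
        set p1 := mk β (br (Lv v)) hirr q1 with hp1
        obtain ⟨d2, hd2D, hd2L, hd2⟩ := cof p1 (hK p1 p1a)
        have d2a : ag β d2.v (br (Lv v)) := by
          obtain ⟨z, hz, hdz⟩ := hK2 d2 hd2L
          exact ag_convex p1a hz hd2.le hdz
        have hlt : d1.v β < d2.v β := by
          have h2 := le_of_lt_ag (ag_trans p1a (ag_symm d2a)) hd2
          rw [p1v] at h2
          exact hq1.trans_le h2
        have hM : MeetAt d1 d2 β := ⟨ag_trans d1a (ag_symm d2a), hlt.ne⟩
        refine Or.inl (Or.inl ⟨(d1, d2), ⟨hd1D, hd2D⟩, ?_⟩)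
        ext x
        constructor
        · rintro ⟨β', z, hMz, hz1, hz3⟩
          have e := hM.unique hMz
          subst e
          exact low v x z hz3 (hK z (ag_trans hz1 d1a))
        · intro hx
          obtain ⟨z, hz, hxz⟩ := hK2 x hx
          exact ⟨β, z, hM, ag_trans hz (ag_symm d1a), hxz⟩
      · -- left end of a node
        obtain ⟨hK, hK2⟩ := hcl
        have z0a := mk_ag β (br (Lv v)) hirr 0
        set z0 := mk β (br (Lv v)) hirr 0 with hz0
        obtain ⟨d1, hd1D, hd1L, hd1⟩ := coin z0 (hK z0 z0a)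
        have d1a : ag β d1.v (br (Lv v)) := by
          obtain ⟨z, hz, hdz⟩ := hK2 d1 hd1L
          exact ag_convex hz z0a hdz hd1.le
        obtain ⟨q1, hq1⟩ := exists_rat_lt (d1.v β)
        have p1a := mk_ag β (br (Lv v)) hirr q1
        have p1v := mk_at β (br (Lv v)) hirr q1
        set p1 := mk β (br (Lv v)) hirr q1 with hp1
        obtain ⟨d2, hd2D, hd2L, hd2⟩ := coin p1 (hK p1 p1a)
        have d2a : ag β d2.v (br (Lv v)) := by
          obtain ⟨z, hz, hdz⟩ := hK2 d2 hd2L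
          exact ag_convex hz p1a hdz hd2.le
        have hlt : d2.v β < d1.v β := by
          have h2 := le_of_lt_ag (ag_trans d2a (ag_symm p1a)) hd2
          rw [p1v] at h2
          exact h2.trans_lt hq1
        have hM : MeetAt d1 d2 β := ⟨ag_trans d1a (ag_symm d2a), hlt.ne'⟩
        refine Or.inl (Or.inr ⟨(d1, d2), ⟨hd1D, hd2D⟩, ?_⟩)
        ext x
        constructor
        · intro hx
          by_contra hxL
          obtain ⟨z, hz, hxz⟩ := hK2 x hxL
          exact hx ⟨β, z, hM, ag_trans hz (ag_symm d1a), hxz⟩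
        · rintro hx ⟨β', z, hMz, hz1, hz3⟩
          have e := hM.unique hMz
          subst e
          exact hK z (ag_trans hz1 d1a) (low v z x hz3 hx)
  have hcount : (Ioo 0 (h X)).Countable := by
    refine Set.MapsTo.countable_of_injOn (f := Lv) (t := 𝓒) mem ?_ h𝓒
    intro v hv v' hv' e
    rcases lt_trichotomy v v' with h1 | h1 | h1
    · exact absurd e (inj v v' hv.1 h1 hv'.2)
    · exact h1
    · exact absurd e.symm (inj v' v hv'.1 h1 hv.2)
  exact absurd (Real.Ioo_countable_iff.1 hcount) (not_le.2 hX0)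

end H967OT
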