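import Pool.Agent.H967R3.OT.Main
import Pool.Agent.H967R3.OT.Lat
import Pool.Agent.H967R3.OT.Hol

set_option autoImplicit false
set_option linter.unusedSectionVars false

namespace H967OT

open Set

variable {W : Type} [LinearOrder W] [WellFoundedLT W]
variable {G : Type} [AddCommGroup G] [Lattice G] [IsOrderedAddMonoid G]

theorem disj_aux {a a' b : G} (ha : 0 ≤ a) (ha' : 0 ≤ a') (hb : 0 ≤ b) (h : a ⊓ b = 0)
    (h' : a' ⊓ b = 0) : (a + a') ⊓ b = 0 := by
  refine le_antisymm ?_ (le_inf (add_nonneg ha ha') hb)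
  set x := (a + a') ⊓ b with hx
  have h1 : x ≤ b := inf_le_right
  have h2 : x - a ≤ a' := by
    rw [sub_le_iff_le_add']
    exact inf_le_left
  have h3 : x - a ≤ b := (sub_le_self x ha).trans h1
  have h4 : x - a ≤ 0 := by rw [← h']; exact le_inf h2 h3
  have h5 : x ≤ a := by simpa using h4
  rw [← h]; exact le_inf h5 h1

theorem disj_nsmul {a b : G} (ha : 0 ≤ a) (hb : 0 ≤ b) (h : a ⊓ b = 0) (n : ℕ) :
    (n • a) ⊓ b = 0 := by
  induction n with
  | zero => simpa using hb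
  | succ n ih => rw [succ_nsmul]; exact disj_aux (nsmul_nonneg ha n) ha hb ih h

theorem disj_nsmul2 {a b : G} (ha : 0 ≤ a) (hb : 0 ≤ b) (h : a ⊓ b = 0) (n m : ℕ) :
    (n • a) ⊓ (m • b) = 0 := by
  have h1 := disj_nsmul ha hb h n
  rw [inf_comm] at h1 ⊢
  exact disj_nsmul hb (nsmul_nonneg ha n) h1 m

def idl (a : G) : {I : Set G // ∃ a : G, I = {x : G | ∃ n : ℕ, |x| ≤ n • |a|}} :=
  ⟨{x : G | ∃ n : ℕ, |x| ≤ n • |a|}, a, rfl⟩

theorem idl_le {a b : G} : idl a ≤ idl b ↔ ∃ n : ℕ, |a| ≤ n • |b| := by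
  constructor
  · intro h
    have : a ∈ (idl a).1 := ⟨1, by simp⟩
    exact h this
  · rintro ⟨n, hn⟩ x ⟨m, hm⟩
    refine ⟨m * n, hm.trans ?_⟩
    rw [mul_nsmul']
    exact nsmul_le_nsmul_right hn m

theorem reduce (hb : HB W)
    (F : OO (T W) ≃o {I : Set G // ∃ a : G, I = {x : G | ∃ n : ℕ, |x| ≤ n • |a|}}) : False := by
  let coz : G → Set (T W) := fun a => (F.symm (idl a)).1
  have hcozO : ∀ a, coz a ∈ OO (T W) := fun a => (F.symm (idl a)).2
  have hmono : ∀ a b : G, coz a ⊆ coz b ↔ ∃ n : ℕ, |a| ≤ n • |b| := by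
    intro a b
    rw [← idl_le, ← F.symm.le_iff_le]
    rfl
  have hmono' : ∀ a b : G, 0 ≤ a → 0 ≤ b → (coz a ⊆ coz b ↔ ∃ n : ℕ, a ≤ n • b) := by
    intro a b ha hb
    rw [hmono, abs_of_nonneg ha, abs_of_nonneg hb]
  have hsurj : ∀ U ∈ OO (T W), ∃ a : G, 0 ≤ a ∧ coz a = U := by
    intro U hU
    obtain ⟨a, ha⟩ := (F ⟨U, hU⟩).2
    have h1 : idl a = F ⟨U, hU⟩ := Subtype.ext ha.symm
    have h2 : idl |a| = idl a := by
      apply le_antisymm
      · rw [idl_le]; exact ⟨1, by simp⟩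
      · rw [idl_le]; exact ⟨1, by simp⟩
    refine ⟨|a|, abs_nonneg a, ?_⟩
    change (F.symm (idl |a|)).1 = U
    rw [h2, h1, F.symm_apply_apply]
  have hadd : ∀ a b : G, 0 ≤ a → 0 ≤ b → coz (a + b) = coz a ∪ coz b := by
    intro a b ha hb
    apply Subset.antisymm
    · obtain ⟨c, hc, hce⟩ := hsurj _ (OO_union (hcozO a) (hcozO b))
      rw [← hce]
      have h1 : coz a ⊆ coz c := by rw [hce]; exact subset_union_left
      have h2 : coz b ⊆ coz c := by rw [hce]; exact subset_union_right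
      obtain ⟨n, hn⟩ := (hmono' a c ha hc).1 h1
      obtain ⟨m, hm⟩ := (hmono' b c hb hc).1 h2
      refine (hmono' _ c (add_nonneg ha hb) hc).2 ⟨n + m, ?_⟩
      rw [add_nsmul]; exact add_le_add hn hm
    · apply union_subset
      · exact (hmono' _ _ ha (add_nonneg ha hb)).2 ⟨1, by simpa using hb⟩
      · exact (hmono' _ _ hb (add_nonneg ha hb)).2 ⟨1, by simpa using ha⟩
  have h0 : coz 0 = ∅ := by
    obtain ⟨c, hc, hce⟩ := hsurj _ OO_empty
    have : coz 0 ⊆ coz c := (hmono' _ _ le_rfl hc).2 ⟨0, by simp⟩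
    rw [hce] at this
    exact subset_empty_iff.1 this
  have hdisj : ∀ a b : G, 0 ≤ a → 0 ≤ b → a ⊓ b = 0 → coz a ∩ coz b = ∅ := by
    intro a b ha hb hab
    obtain ⟨c, hc, hce⟩ := hsurj _ (OO_inter (hcozO a) (hcozO b))
    obtain ⟨n, hn⟩ := (hmono' c a hc ha).1 (by rw [hce]; exact inter_subset_left)
    obtain ⟨m, hm⟩ := (hmono' c b hc hb).1 (by rw [hce]; exact inter_subset_right)
    have : c ≤ 0 := by
      rw [← disj_nsmul2 ha hb hab n m]
      exact le_inf hn hm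
    rw [← hce, le_antisymm this hc, h0]
  obtain ⟨e, he, hee⟩ := hsurj _ OO_univ
  have hH : ∀ x : T W, ∃ ρ : G →+ ℝ, ρ e = 1 ∧ ∀ g, 0 < ρ g ↔ x ∈ coz (g ⊔ 0) := by
    intro x
    refine holder (fun g => x ∈ coz (g ⊔ 0)) e ?_ ?_ ?_ ?_ ?_
    · rintro g ⟨h1, h2⟩
      have := hdisj (g ⊔ 0) (-g ⊔ 0) le_sup_right le_sup_right (by
        have := posPart_inf_negPart_eq_zero g
        rwa [posPart_def, negPart_def] at this)
      have h3 : x ∈ coz (g ⊔ 0) ∩ coz (-g ⊔ 0) := ⟨h1, h2⟩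
      rw [this] at h3
      exact h3
    · intro g h h1 h2 h3
      have h4 : coz ((g + h) ⊔ 0) ⊆ coz ((g ⊔ 0) + (h ⊔ 0)) :=
        (hmono' _ _ le_sup_right (add_nonneg le_sup_right le_sup_right)).2 ⟨1, by
          rw [one_nsmul]
          exact sup_le (add_le_add le_sup_left le_sup_left)
            (add_nonneg le_sup_right le_sup_right)⟩
      rw [hadd _ _ le_sup_right le_sup_right] at h4
      exact (h4 h3).elim h1 h2
    · change x ∈ coz (e ⊔ 0)
      rw [sup_eq_left.2 he, hee]; trivial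
    · intro g hg
      obtain ⟨u, hu, hue⟩ := hsurj _ (OO_union (OO_Iio x) (OO_Ioi x))
      have hxg : x ∈ coz (g ⊔ 0) := hg
      have hg0 : (0 : G) ≤ g ⊔ 0 := le_sup_right
      have hng0 : (0 : G) ≤ -g ⊔ 0 := le_sup_right
      have h1 : coz e ⊆ coz ((g ⊔ 0) + u) := by
        rw [hadd _ _ hg0 hu, hue]
        intro y _
        rcases lt_trichotomy y x with h | h | h
        · exact Or.inr (Or.inl h)
        · rw [h]; exact Or.inl hxg
        · exact Or.inr (Or.inr h)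
      obtain ⟨n, hn⟩ := (hmono' _ _ he (add_nonneg hg0 hu)).1 h1
      refine ⟨n, ?_⟩
      change x ∉ coz ((e - n • g) ⊔ 0)
      intro hx
      have hgg : (g ⊔ 0) - (-g ⊔ 0) = g := by
        have := posPart_sub_negPart g
        rwa [posPart_def, negPart_def] at this
      have h2 : (e - n • g) ⊔ 0 ≤ n • (u + (-g ⊔ 0)) := by
        apply sup_le
        · have h3 : n • g = n • (g ⊔ 0) - n • (-g ⊔ 0) := by rw [← nsmul_sub, hgg]
          rw [h3, nsmul_add]
          rw [nsmul_add] at hn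
          have : e - (n • (g ⊔ 0) - n • (-g ⊔ 0)) ≤
              (n • (g ⊔ 0) + n • u) - (n • (g ⊔ 0) - n • (-g ⊔ 0)) := sub_le_sub_right hn _
          refine this.trans (le_of_eq ?_)
          abel
        · exact nsmul_nonneg (add_nonneg hu hng0) n
      have h4 : coz ((e - n • g) ⊔ 0) ⊆ coz (u + (-g ⊔ 0)) :=
        (hmono' _ _ le_sup_right (add_nonneg hu hng0)).2 ⟨n, h2⟩
      rw [hadd _ _ hu hng0] at h4
      rcases h4 hx with h5 | h5
      · rw [hue] at h5
        rcases h5 with h5 | h5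
        · exact lt_irrefl x (mem_Iio.1 h5)
        · exact lt_irrefl x (mem_Ioi.1 h5)
      · have := hdisj (g ⊔ 0) (-g ⊔ 0) le_sup_right le_sup_right (by
          have := posPart_inf_negPart_eq_zero g
          rwa [posPart_def, negPart_def] at this)
        have h3 : x ∈ coz (g ⊔ 0) ∩ coz (-g ⊔ 0) := ⟨hxg, h5⟩
        rw [this] at h3
        exact h3
    · intro g
      have h1 : coz (g ⊔ 0) ⊆ coz e := by rw [hee]; exact subset_univ _
      obtain ⟨n, hn⟩ := (hmono' _ _ le_sup_right he).1 h1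
      refine ⟨n, ?_⟩
      change x ∉ coz ((g - n • e) ⊔ 0)
      have : (g - n • e) ⊔ 0 = 0 := by
        rw [sup_eq_right, sub_nonpos]
        exact le_sup_left.trans hn
      rw [this, h0]
      exact notMem_empty x
  choose ρ hρ1 hρ using hH
  have hset : ∀ g : G, {x | 0 < ρ x g} = coz (g ⊔ 0) := by
    intro g; ext x; exact hρ x g
  refine core (W := W) (O := OO (T W)) (G := range (fun (g : G) (x : T W) => ρ x g)) hb ?_
  constructor
  · intro U hU; exact OO_meas hU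
  · intro U hU; exact OO_open exists_gt' exists_lt' hU
  · exact OO_Ioo
  · rintro _ ⟨g, rfl⟩ _ ⟨h, rfl⟩
    have : {x | ρ x g < ρ x h} = coz ((h - g) ⊔ 0) := by
      rw [← hset]; ext x
      simp [map_sub, sub_pos]
    change {x | ρ x g < ρ x h} ∈ _
    rw [this]; exact hcozO _
  · rintro _ ⟨g, rfl⟩ q
    have : {x | (q : ℝ) < ρ x g} = coz ((q.den • g - q.num • e) ⊔ 0) := by
      rw [← hset]; ext x
      have hd : (0 : ℝ) < q.den := by exact_mod_cast q.den_pos
      simp only [mem_setOf_eq, map_sub, map_nsmul, map_zsmul, hρ1, sub_pos, nsmul_eq_mul,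
        zsmul_eq_mul, mul_one]
      rw [Rat.cast_def, div_lt_iff₀ hd, mul_comm]
    change {x | (q : ℝ) < ρ x g} ∈ _
    rw [this]; exact hcozO _
  · rintro _ ⟨g, rfl⟩ q
    have : {x | ρ x g < (q : ℝ)} = coz ((q.num • e - q.den • g) ⊔ 0) := by
      rw [← hset]; ext x
      have hd : (0 : ℝ) < q.den := by exact_mod_cast q.den_pos
      simp only [mem_setOf_eq, map_sub, map_nsmul, map_zsmul, hρ1, sub_pos, nsmul_eq_mul,
        zsmul_eq_mul, mul_one]
      rw [Rat.cast_def, lt_div_iff₀ hd, mul_comm]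
    change {x | ρ x g < (q : ℝ)} ∈ _
    rw [this]; exact hcozO _
  · intro U hU
    obtain ⟨g, hg, hgU⟩ := hsurj U hU
    refine ⟨_, ⟨g, rfl⟩, fun x => ⟨?_, ?_⟩⟩
    · by_contra hc
      push Not at hc
      have h1 : 0 < ρ x (-g) := by rw [map_neg]; exact neg_pos.2 hc
      rw [hρ, sup_eq_right.2 (neg_nonpos.2 hg), h0] at h1
      exact h1
    · change 0 < ρ x g ↔ x ∈ U
      rw [hρ, sup_eq_left.2 hg, hgU]

end H967OT
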