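import Mathlib

set_option autoImplicit false
set_option linter.unusedSectionVars false

namespace H967OT

open Set

variable {W : Type} [LinearOrder W] [WellFoundedLT W]

/-- A point: irrational entries below `α`, a rational entry at `α`, zero above. -/
def IsPt (x : W → ℝ) : Prop :=
  ∃ α, (∀ j < α, Irrational (x j)) ∧ (∃ q : ℚ, x α = q) ∧ ∀ j, α < j → x j = 0

variable (W) in
/-- The chain. -/
def T : Type := {x : Lex (W → ℝ) // IsPt (ofLex x)}

noncomputable instance : LinearOrder (T W) :=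
  inferInstanceAs (LinearOrder {x : Lex (W → ℝ) // IsPt (ofLex x)})

/-- the entries -/
def T.v (x : T W) : W → ℝ := ofLex x.1

theorem lt_iff {x y : T W} :
    x < y ↔ ∃ i, (∀ j < i, x.v j = y.v j) ∧ x.v i < y.v i := Iff.rfl

def ag (γ : W) (x f : W → ℝ) : Prop := ∀ j < γ, x j = f j

theorem ag_symm {γ : W} {x f : W → ℝ} (h : ag γ x f) : ag γ f x := fun j hj => (h j hj).symm
theorem ag_trans {γ : W} {x f g : W → ℝ} (h : ag γ x f) (h' : ag γ f g) : ag γ x g :=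
  fun j hj => (h j hj).trans (h' j hj)
theorem ag_mono {γ γ' : W} {x f : W → ℝ} (h : ag γ x f) (h' : γ' ≤ γ) : ag γ' x f :=
  fun j hj => h j (lt_of_lt_of_le hj h')

theorem lt_of_ag {x y : T W} {γ : W} (h : ag γ x.v y.v) (h2 : x.v γ < y.v γ) : x < y := ⟨γ, h, h2⟩

theorem le_of_lt_ag {x y : T W} {γ : W} (h : ag γ x.v y.v) (h2 : x < y) : x.v γ ≤ y.v γ := by
  obtain ⟨i, hi, hi2⟩ := lt_iff.1 h2
  rcases lt_trichotomy i γ with h3 | h3 | h3
  · exact absurd (h i h3) hi2.ne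
  · subst h3; exact hi2.le
  · exact (hi γ h3).le

theorem le_of_le_ag {x y : T W} {γ : W} (h : ag γ x.v y.v) (h2 : x ≤ y) : x.v γ ≤ y.v γ := by
  rcases h2.eq_or_lt with h3 | h3
  · rw [h3]
  · exact le_of_lt_ag h h3

theorem ag_convex {x y z : T W} {γ : W} {f : W → ℝ} (hx : ag γ x.v f) (hz : ag γ z.v f)
    (h1 : x ≤ y) (h2 : y ≤ z) : ag γ y.v f := by
  intro j
  induction j using WellFoundedLT.induction with
  | ind j ih =>
    intro hj
    have hy : ag j y.v f := fun k hk => ih k hk (hk.trans hj)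
    have a1 : x.v j ≤ y.v j := le_of_le_ag (ag_trans (ag_mono hx hj.le) (ag_symm hy)) h1
    have a2 : y.v j ≤ z.v j := le_of_le_ag (ag_trans hy (ag_symm (ag_mono hz hj.le))) h2
    have b1 := hx j hj
    have b2 := hz j hj
    linarith

theorem fd {x y : T W} (h : x < y) :
    ∃ i, ag i x.v y.v ∧ x.v i < y.v i ∧ (∀ j < i, Irrational (x.v j)) := by
  obtain ⟨i, hi, hi2⟩ := lt_iff.1 h
  refine ⟨i, hi, hi2, ?_⟩
  obtain ⟨α, h1, ⟨q, hq⟩, h3⟩ := x.2
  obtain ⟨α', h1', ⟨q', hq'⟩, h3'⟩ := y.2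
  have key : i ≤ α := by
    by_contra hc
    push Not at hc
    have e1 : y.v α = q := by rw [← hi α hc]; exact hq
    have e2 : α' ≤ α := by
      by_contra hc2
      push Not at hc2
      have := h1' α hc2
      exact this ⟨q, e1.symm⟩
    have e3 : y.v i = 0 := h3' i (lt_of_le_of_lt e2 hc)
    have e4 : x.v i = 0 := h3 i hc
    rw [e3, e4] at hi2
    exact lt_irrefl _ hi2
  intro j hj
  exact h1 j (lt_of_lt_of_le hj key)

theorem eq_of_ag {x y : T W} {γ : W} {q : ℚ} (h : ag γ x.v y.v) (hx : x.v γ = q)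
    (hy : y.v γ = q) : x = y := by
  rcases lt_trichotomy x y with h1 | h1 | h1
  · exfalso
    obtain ⟨i, hi, hi2, hi3⟩ := fd h1
    rcases lt_trichotomy i γ with h3 | h3 | h3
    · exact absurd (h i h3) hi2.ne
    · subst h3; rw [hx, hy] at hi2; exact lt_irrefl _ hi2
    · exact hi3 γ h3 ⟨q, hx.symm⟩
  · exact h1
  · exfalso
    obtain ⟨i, hi, hi2, hi3⟩ := fd h1
    rcases lt_trichotomy i γ with h3 | h3 | h3
    · exact absurd (h i h3) hi2.ne'
    · subst h3; rw [hx, hy] at hi2; exact lt_irrefl _ hi2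
    · exact hi3 γ h3 ⟨q, hy.symm⟩

/-- the point closing `f|γ` with the rational `q`. -/
noncomputable def mk (γ : W) (f : W → ℝ) (hf : ∀ j < γ, Irrational (f j)) (q : ℚ) : T W :=
  ⟨toLex (fun j => if j < γ then f j else if j = γ then (q : ℝ) else 0), γ, by
    intro j hj
    simpa [hj] using hf j hj, ⟨q, by simp⟩, by
    intro j hj
    have h1 : ¬ j < γ := not_lt.2 hj.le
    have h2 : j ≠ γ := hj.ne'
    simp [h1, h2]⟩

theorem mk_ag (γ : W) (f : W → ℝ) (hf : ∀ j < γ, Irrational (f j)) (q : ℚ) :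
    ag γ (mk γ f hf q).v f := by
  intro j hj
  simp [mk, T.v, hj]

theorem mk_at (γ : W) (f : W → ℝ) (hf : ∀ j < γ, Irrational (f j)) (q : ℚ) :
    (mk γ f hf q).v γ = q := by
  simp [mk, T.v]

/-- the level at which the point closes -/
theorem exists_len (x : T W) : ∃ α, (∀ j < α, Irrational (x.v j)) ∧ ∃ q : ℚ, x.v α = q := by
  obtain ⟨α, h1, h2, h3⟩ := x.2
  exact ⟨α, h1, h2⟩

theorem exists_gt' (x : T W) : ∃ y, x < y := by
  obtain ⟨α, h1, q, hq⟩ := exists_len x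
  refine ⟨mk α x.v h1 (q + 1), lt_of_ag (γ := α) (ag_symm (mk_ag _ _ _ _)) ?_⟩
  rw [mk_at, hq]; push_cast; linarith

theorem exists_lt' (x : T W) : ∃ y, y < x := by
  obtain ⟨α, h1, q, hq⟩ := exists_len x
  refine ⟨mk α x.v h1 (q - 1), lt_of_ag (γ := α) (mk_ag _ _ _ _) ?_⟩
  rw [mk_at, hq]; push_cast; linarith

theorem exists_between' {x y : T W} (h : x < y) : ∃ z, x < z ∧ z < y := by
  obtain ⟨i, hi, hi2, hi3⟩ := fd h
  obtain ⟨q, hq1, hq2⟩ := exists_rat_btwn hi2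
  refine ⟨mk i x.v hi3 q, lt_of_ag (γ := i) (ag_symm (mk_ag _ _ _ _)) ?_,
    lt_of_ag (γ := i) (ag_trans (mk_ag _ _ _ _) hi) ?_⟩
  · rw [mk_at]; exact hq1
  · rw [mk_at]; exact hq2

noncomputable instance : DenselyOrdered (T W) := ⟨fun _ _ h => by
  obtain ⟨z, h1, h2⟩ := exists_between' h; exact ⟨z, h1, h2⟩⟩

/-! ### cuts -/

structure Gap (L : Set (T W)) : Prop where
  low : ∀ x y, x ≤ y → y ∈ L → x ∈ L
  ne : L.Nonempty
  ne' : ∃ y, y ∉ L
  nomax : ∀ x ∈ L, ∃ y ∈ L, x < y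
  nomin : ∀ x, x ∉ L → ∃ y, y ∉ L ∧ y < x

theorem Gap.lt {L : Set (T W)} (h : Gap L) {x y : T W} (hx : x ∈ L) (hy : y ∉ L) : x < y := by
  by_contra hc
  exact hy (h.low y x (not_lt.1 hc) hx)

noncomputable def br (L : Set (T W)) : W → ℝ :=
  (wellFounded_lt (α := W)).fix (fun γ ih =>
    sSup {r : ℝ | ∃ x ∈ L, (∀ j (hj : j < γ), x.v j = ih j hj) ∧ r = x.v γ})

theorem br_eq (L : Set (T W)) (γ : W) :
    br L γ = sSup {r : ℝ | ∃ x ∈ L, ag γ x.v (br L) ∧ r = x.v γ} := by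
  unfold br
  rw [WellFounded.fix_eq]
  rfl

def CutAt (L : Set (T W)) (γ : W) : Prop :=
  (∃ x ∈ L, ag γ x.v (br L)) ∧ (∃ y, y ∉ L ∧ ag γ y.v (br L))

theorem le_br {L : Set (T W)} (hL : Gap L) {γ : W} (hc : CutAt L γ) {x : T W} (hx : x ∈ L)
    (hxa : ag γ x.v (br L)) : x.v γ ≤ br L γ := by
  obtain ⟨-, y0, hy0, hy0a⟩ := hc
  rw [br_eq]
  refine le_csSup ⟨y0.v γ, ?_⟩ ⟨x, hx, hxa, rfl⟩
  rintro r ⟨x', hx', hx'a, rfl⟩
  exact le_of_lt_ag (ag_trans hx'a (ag_symm hy0a)) (hL.lt hx' hy0)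

theorem br_lt {L : Set (T W)} {γ : W} (hc : CutAt L γ) {r : ℝ} (hr : r < br L γ) :
    ∃ x ∈ L, ag γ x.v (br L) ∧ r < x.v γ := by
  obtain ⟨⟨x0, hx0, hx0a⟩, -⟩ := hc
  rw [br_eq] at hr
  have hne : {r : ℝ | ∃ x ∈ L, ag γ x.v (br L) ∧ r = x.v γ}.Nonempty :=
    ⟨x0.v γ, x0, hx0, hx0a, rfl⟩
  obtain ⟨s, ⟨x, hx, hxa, rfl⟩, hs⟩ := exists_lt_of_lt_csSup hne hr
  exact ⟨x, hx, hxa, hs⟩

theorem C1 {L : Set (T W)} (hL : Gap L) (γ : W) (hirr : ∀ j < γ, Irrational (br L j))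
    (hc : CutAt L γ) : Irrational (br L γ) := by
  rintro ⟨q, hq⟩
  obtain ⟨⟨x0, hx0, hx0a⟩, y0, hy0, hy0a⟩ := id hc
  have pa := mk_ag γ (br L) hirr q
  have pq := mk_at γ (br L) hirr q
  set p := mk γ (br L) hirr q with hp
  by_cases hpL : p ∈ L
  · obtain ⟨x, hx, hpx⟩ := hL.nomax p hpL
    have xa : ag γ x.v (br L) := ag_convex pa hy0a hpx.le (hL.lt hx hy0).le
    have h1 : x.v γ ≤ br L γ := le_br hL hc hx xa
    have h2 : p.v γ ≤ x.v γ := le_of_lt_ag (ag_trans pa (ag_symm xa)) hpx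
    have h3 : x.v γ = q := by rw [pq] at h2; rw [← hq] at h1; exact le_antisymm h1 h2
    exact hpx.ne (eq_of_ag (ag_trans pa (ag_symm xa)) pq h3)
  · obtain ⟨y, hy, hyp⟩ := hL.nomin p hpL
    have ya : ag γ y.v (br L) := ag_convex hx0a pa (hL.lt hx0 hy).le hyp.le
    have h2 : y.v γ ≤ p.v γ := le_of_lt_ag (ag_trans ya (ag_symm pa)) hyp
    rcases h2.eq_or_lt with h3 | h3
    · exact hyp.ne (eq_of_ag (ag_trans ya (ag_symm pa)) (h3.trans pq) pq)
    · rw [pq, hq] at h3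
      obtain ⟨x, hx, xa, hxy⟩ := br_lt hc h3
      have : y < x := lt_of_ag (ag_trans ya (ag_symm xa)) hxy
      exact lt_asymm this (hL.lt hx hy)

theorem C2 {L : Set (T W)} (hL : Gap L) (β : W) (hirr : ∀ j < β, Irrational (br L j))
    (hcut : ∀ γ < β, CutAt L γ) (hn : ¬ CutAt L β) :
    ((∀ z : T W, ag β z.v (br L) → z ∈ L) ∧ ∀ l ∈ L, ∃ z : T W, ag β z.v (br L) ∧ l ≤ z) ∨
    ((∀ z : T W, ag β z.v (br L) → z ∉ L) ∧ ∀ y, y ∉ L → ∃ z : T W, ag β z.v (br L) ∧ z ≤ y) := by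
  have z0a := mk_ag β (br L) hirr 0
  set z0 := mk β (br L) hirr 0 with hz0
  by_cases hc : ∃ y : T W, y ∉ L ∧ ag β y.v (br L)
  · right
    have hK : ∀ z : T W, ag β z.v (br L) → z ∉ L := by
      intro z hz hzL
      exact hn ⟨⟨z, hzL, hz⟩, hc⟩
    refine ⟨hK, ?_⟩
    intro y hy
    by_contra hcon
    push Not at hcon
    have h1 : y < z0 := hcon z0 z0a
    have h2 : ¬ ag β y.v (br L) := fun h => lt_irrefl _ (hcon y h)
    obtain ⟨i, hi, hi2, hi3⟩ := fd h1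
    have hiβ : i < β := by
      by_contra hh
      push Not at hh
      exact h2 (ag_trans (ag_mono hi hh) z0a)
    have ya : ag i y.v (br L) := ag_trans hi (ag_mono z0a hiβ.le)
    rw [z0a i hiβ] at hi2
    obtain ⟨x, hx, xa, hxy⟩ := br_lt (hcut i hiβ) hi2
    exact lt_asymm (lt_of_ag (ag_trans ya (ag_symm xa)) hxy) (hL.lt hx hy)
  · left
    push Not at hc
    have hK : ∀ z : T W, ag β z.v (br L) → z ∈ L := by
      intro z hz
      by_contra hzL
      exact hc z hzL hz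
    refine ⟨hK, ?_⟩
    intro l hl
    by_contra hcon
    push Not at hcon
    have h1 : z0 < l := hcon z0 z0a
    have h2 : ¬ ag β l.v (br L) := fun h => lt_irrefl _ (hcon l h)
    obtain ⟨i, hi, hi2, hi3⟩ := fd h1
    have hiβ : i < β := by
      by_contra hh
      push Not at hh
      exact h2 (ag_trans (ag_symm (ag_mono hi hh)) z0a)
    have la : ag i l.v (br L) := ag_trans (ag_symm hi) (ag_mono z0a hiβ.le)
    rw [z0a i hiβ] at hi2
    exact absurd (le_br hL (hcut i hiβ) hl la) (not_le.2 hi2)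

/-- Either every level has a cut node or the cut is at an end of a node. -/
theorem classify {L : Set (T W)} (hL : Gap L) :
    (∀ γ, CutAt L γ ∧ Irrational (br L γ)) ∨
    ∃ β, (∀ j < β, Irrational (br L j)) ∧
    (((∀ z : T W, ag β z.v (br L) → z ∈ L) ∧ ∀ l ∈ L, ∃ z : T W, ag β z.v (br L) ∧ l ≤ z) ∨
    ((∀ z : T W, ag β z.v (br L) → z ∉ L) ∧
      ∀ y, y ∉ L → ∃ z : T W, ag β z.v (br L) ∧ z ≤ y)) := by
  by_cases h : ∀ γ, CutAt L γ
  · left
    have : ∀ γ, Irrational (br L γ) := by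
      intro γ
      induction γ using WellFoundedLT.induction with
      | ind γ ih => exact C1 hL γ ih (h γ)
    exact fun γ => ⟨h γ, this γ⟩
  · right
    push Not at h
    obtain ⟨β, hβ, hmin⟩ := (wellFounded_lt (α := W)).has_min {γ | ¬ CutAt L γ} h
    have hcut : ∀ γ < β, CutAt L γ := by
      intro γ hγ
      by_contra hc
      exact hmin γ hc hγ
    have hirr : ∀ γ, γ < β → Irrational (br L γ) := by
      intro γ
      induction γ using WellFoundedLT.induction with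
      | ind γ ih => exact fun hγ => C1 hL γ (fun j hj => ih j hj (hj.trans hγ)) (hcut γ hγ)
    exact ⟨β, hirr, C2 hL β hirr hcut hβ⟩

end H967OT
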